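import Mathlib
import Pool.Agent.Lib.MP_2c59d0_an.Proof

/-!
Positive answer to Q1 of MP_2c59d0_an: for every `γ > 0`, every `m ≥ 1` and all positive initial
values the solution of `x_{n+1} = γ + x_{n-2m} / x_{n-1}` is bounded.
-/

namespace Pool.Agent.Results.MP_2c59d0_an.AllSolutionsBounded

/-- Let `γ > 0` and let `m ≥ 1` be an integer. If `x_{-2m}, ..., x_0` are positive and
`x_{n+1} = γ + x_{n-2m} / x_{n-1}` for all `n ≥ 0`, then `(x_n)_{n ≥ -2m}` is bounded above (all its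
terms being positive, this says that the solution is bounded). -/
theorem result (γ : ℝ) (hγ : 0 < γ) (m : ℕ) (hm : 1 ≤ m) (x : ℤ → ℝ)
    (hinit : ∀ n : ℤ, -(2 * m : ℤ) ≤ n → n ≤ 0 → 0 < x n)
    (hrec : ∀ n : ℤ, 0 ≤ n → x (n + 1) = γ + x (n - 2 * m) / x (n - 1)) :
    ∃ M : ℝ, ∀ n : ℤ, -(2 * m : ℤ) ≤ n → x n ≤ M :=
  Pool.Agent.Lib.MP_2c59d0_an.main γ hγ m hm x hinit hrec

end Pool.Agent.Results.MP_2c59d0_an.AllSolutionsBounded
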